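import Mathlib
import Pool.Agent.Helper647.SewFinal

set_option autoImplicit false

open Set Topology Pool.Agent.Helper647.Sew

/-- The answer to Q1 is no: some hyperbolic conformal sewing `α` can be approximated, as closely as
any positive continuous `ε` asks, by conformal sewings `β` that are not hyperbolic. -/
theorem Pool.Agent.Results.MP_c26c1b_an.Instability.result :
    ∃ (α : ℝ → ℝ) (a : ℝ), IsConformalSewing α a ∧
      (∀ (X : Type) [TopologicalSpace X] [ChartedSpace ℂ X] (q : ℂ → X),
        IsGenerated α a X q → HasHyperbolicEnd a X q) ∧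
      ∀ ε : ℝ → ℝ, ContinuousOn ε (Ioi 0) → (∀ x, 0 < x → 0 < ε x) →
        ∃ (β : ℝ → ℝ) (b : ℝ), IsConformalSewing β b ∧
          (∀ x, 0 < x → |β x - α x| < ε x) ∧
          ∀ (X : Type) [TopologicalSpace X] [ChartedSpace ℂ X] (q : ℂ → X),
            IsGenerated β b X q → ¬ HasHyperbolicEnd b X q :=
  unstable
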